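import Pool.Agent.Q16.Steiner.Loop

/-!
# Every Steiner loop is a homomorphic image of one in which associativity propagates
-/

open Q16.Steiner

universe u

namespace Pool.Agent.Results.MP_b3a441_al.EverySteinerLoopIsImage

/-- For every Steiner loop `F` there are a Steiner loop `X` in which associativity propagates and a
surjective homomorphism `φ : X → F`. -/
theorem result (F : Type u) (mulF : F → F → F) (eF : F) (hF : IsSteinerLoop mulF eF) :
    ∃ (X : Type u) (mulX : X → X → X) (eX : X),
      IsSteinerLoop mulX eX ∧ AssocPropagates mulX eX ∧
        ∃ φ : X → F, Function.Surjective φ ∧ ∀ x y, φ (mulX x y) = mulF (φ x) (φ y) :=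
  ⟨Free F, fmul, none, free_isSteinerLoop, free_propagates, eval mulF eF, eval_surjective,
    eval_mul hF⟩

end Pool.Agent.Results.MP_b3a441_al.EverySteinerLoopIsImage
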